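import Pool.Agent.H27.G.R_seed8.H306R2.Contour

set_option autoImplicit false

/-! Arithmetic functions with bounded support and Dirichlet polynomials. -/

namespace Pool.Agent.H306R2

open Finset Filter Topology

noncomputable section

/-- complexification -/
def toC (A : ArithmeticFunction ℝ) : ArithmeticFunction ℂ := ⟨fun n => (A n : ℂ), by simp⟩

lemma toC_apply (A : ArithmeticFunction ℝ) (n : ℕ) : toC A n = (A n : ℂ) := rfl

lemma toC_mul (A B : ArithmeticFunction ℝ) : toC (A * B) = toC A * toC B := by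
  ext n
  simp only [toC_apply, ArithmeticFunction.mul_apply]
  push_cast
  rfl

lemma toC_one : toC 1 = 1 := by
  ext n
  simp only [toC_apply, ArithmeticFunction.one_apply]
  split_ifs <;> simp

lemma toC_pow (A : ArithmeticFunction ℝ) (k : ℕ) : toC (A ^ k) = toC A ^ k := by
  induction k with
  | zero => simp [toC_one]
  | succ k ih => rw [pow_succ, pow_succ, toC_mul, ih]

/-- real zeta -/
def zR : ArithmeticFunction ℝ := (ArithmeticFunction.zeta : ArithmeticFunction ℝ)

lemma toC_zR : toC zR = (ArithmeticFunction.zeta : ArithmeticFunction ℂ) := by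
  ext n
  simp only [toC_apply, zR, ArithmeticFunction.natCoe_apply]
  push_cast
  rfl

lemma Dp_hasSum (A : ArithmeticFunction ℝ) (X : ℝ) (hX : ∀ n : ℕ, X < n → A n = 0) (s : ℂ) :
    LSeriesHasSum (fun n => toC A n) s (Dp A X s) := by
  unfold LSeriesHasSum
  have h1 : Dp A X s = ∑ n ∈ Icc 1 ⌊X⌋₊, LSeries.term (fun n => toC A n) s n := by
    unfold Dp
    refine sum_congr rfl fun n hn => ?_
    rw [mem_Icc] at hn
    rw [LSeries.term_of_ne_zero (by omega), toC_apply, Complex.cpow_neg, div_eq_mul_inv]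
  rw [h1]
  apply hasSum_sum_of_ne_finset_zero
  intro n hn
  rw [mem_Icc, not_and_or] at hn
  rcases Nat.eq_zero_or_pos n with h0 | h0
  · subst h0; exact LSeries.term_zero _ _
  · rcases hn with h | h
    · omega
    · rw [LSeries.term_of_ne_zero (by omega), toC_apply, hX n (Nat.lt_of_floor_lt (by omega))]
      simp

lemma Dp_mul (A B : ArithmeticFunction ℝ) (X Y : ℝ) (hX0 : 0 ≤ X) (hY0 : 0 ≤ Y)
    (hX : ∀ n : ℕ, X < n → A n = 0)
    (hY : ∀ n : ℕ, Y < n → B n = 0) (s : ℂ) :
    (∀ n : ℕ, X * Y < n → (A * B) n = 0) ∧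
      Dp (A * B : ArithmeticFunction ℝ) (X * Y) s = Dp A X s * Dp B Y s := by
  have h0 : ∀ n : ℕ, X * Y < n → (A * B) n = 0 := by
    intro n hn
    rw [ArithmeticFunction.mul_apply]
    apply sum_eq_zero
    intro x hx
    rw [Nat.mem_divisorsAntidiagonal] at hx
    by_cases h1 : X < x.1
    · rw [hX _ h1, zero_mul]
    · by_cases h2 : Y < x.2
      · rw [hY _ h2, mul_zero]
      · exfalso
        rw [not_lt] at h1 h2
        have : (n:ℝ) = x.1 * x.2 := by rw [← hx.1]; push_cast; ring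
        have h3 : (x.1:ℝ) * x.2 ≤ X * Y := by
          have := Nat.cast_nonneg (α := ℝ) x.2
          exact mul_le_mul h1 h2 this hX0
        linarith
  refine ⟨h0, ?_⟩
  have h1 := Dp_hasSum (A * B) (X * Y) h0 s
  have h2 := ArithmeticFunction.LSeriesHasSum_mul (Dp_hasSum A X hX s) (Dp_hasSum B Y hY s)
  rw [← toC_mul] at h2
  exact HasSum.unique h1 h2

lemma Dp_pow (A : ArithmeticFunction ℝ) (X : ℝ) (hX0 : 1 ≤ X) (hX : ∀ n : ℕ, X < n → A n = 0)
    (s : ℂ) (k : ℕ) :
    (∀ n : ℕ, X ^ k < n → (A ^ k) n = 0) ∧ Dp (A ^ k : ArithmeticFunction ℝ) (X ^ k) s = Dp A X s ^ k := by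
  induction k with
  | zero =>
    constructor
    · intro n hn
      rw [pow_zero] at hn ⊢
      rw [ArithmeticFunction.one_apply_ne]
      rintro rfl
      simp at hn
    · simp only [pow_zero]
      unfold Dp
      simp
  | succ k ih =>
    have := Dp_mul (A ^ k) A (X ^ k) X (by positivity) (by linarith) ih.1 hX s
    rw [ih.2] at this
    simp only [pow_succ]
    exact this

/-- enlarging the cut-off -/
lemma Dp_mono (A : ArithmeticFunction ℝ) (X Y : ℝ) (hXY : X ≤ Y) (hX : ∀ n : ℕ, X < n → A n = 0)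
    (s : ℂ) : Dp A Y s = Dp A X s :=
  HasSum.unique (Dp_hasSum A Y (fun n hn => hX n (lt_of_le_of_lt hXY hn)) s) (Dp_hasSum A X hX s)

/-- polynomial bound -/
def PB (A : ArithmeticFunction ℝ) (c : ℕ) : Prop := ∀ n : ℕ, |A n| ≤ (n : ℝ) ^ c

lemma PB.mono {A : ArithmeticFunction ℝ} {c d : ℕ} (h : PB A c) (hcd : c ≤ d) : PB A d := by
  intro n
  rcases Nat.eq_zero_or_pos n with h0 | h0
  · subst h0; simp
  · refine (h n).trans (pow_le_pow_right₀ (by exact_mod_cast h0) hcd)

lemma PB.mul {A B : ArithmeticFunction ℝ} {c d : ℕ} (hA : PB A c) (hB : PB B d) :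
    PB (A * B) (c + d + 1) := by
  intro n
  rcases Nat.eq_zero_or_pos n with h0 | h0
  · subst h0; simp
  have hn1 : (1:ℝ) ≤ n := by exact_mod_cast h0
  rw [ArithmeticFunction.mul_apply]
  refine (abs_sum_le_sum_abs _ _).trans ?_
  have h1 : ∀ x ∈ n.divisorsAntidiagonal, |A x.1 * B x.2| ≤ (n:ℝ) ^ (c + d) := by
    intro x hx
    have hx' := Nat.mem_divisorsAntidiagonal.mp hx
    have e1 : (x.1:ℝ) ≤ n := by
      exact_mod_cast Nat.le_of_dvd h0 ⟨x.2, hx'.1.symm⟩
    have e2 : (x.2:ℝ) ≤ n := by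
      exact_mod_cast Nat.le_of_dvd h0 ⟨x.1, by rw [mul_comm]; exact hx'.1.symm⟩
    rw [abs_mul, pow_add]
    have a1 := hA x.1
    have a2 := hB x.2
    calc |A x.1| * |B x.2| ≤ (x.1:ℝ) ^ c * (x.2:ℝ) ^ d := by gcongr
      _ ≤ (n:ℝ) ^ c * (n:ℝ) ^ d := by gcongr
  refine (sum_le_card_nsmul _ _ _ h1).trans ?_
  rw [nsmul_eq_mul, pow_succ, mul_comm]
  have h2 : (#(n.divisorsAntidiagonal) : ℝ) ≤ n := by
    have : #(n.divisorsAntidiagonal) = #(n.divisors) := by
      rw [← Nat.map_div_right_divisors, card_map]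
    rw [this]
    exact_mod_cast Nat.card_divisors_le_self n
  gcongr

lemma PB_one : PB 1 0 := by
  intro n
  rw [ArithmeticFunction.one_apply]
  split_ifs <;> simp

lemma PB_zR : PB zR 0 := by
  intro n
  simp only [zR, ArithmeticFunction.natCoe_apply, ArithmeticFunction.zeta_apply, pow_zero]
  split_ifs <;> simp

lemma PB.pow {A : ArithmeticFunction ℝ} {c : ℕ} (hA : PB A c) (k : ℕ) : PB (A ^ k) (k * (c + 1)) := by
  induction k with
  | zero => simpa using PB_one
  | succ k ih =>
    rw [pow_succ]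
    have := ih.mul hA
    rw [show (k + 1) * (c + 1) = k * (c + 1) + c + 1 by ring]
    exact this

/-- the L-series of `ζ^j * A`. -/
lemma zetaA_hasSum (j : ℕ) (A : ArithmeticFunction ℝ) (X : ℝ) (hX : ∀ n : ℕ, X < n → A n = 0)
    (s : ℂ) (hs : 1 < s.re) :
    HasSum (fun n : ℕ => ((zR ^ j * A) n : ℂ) * (n : ℂ) ^ (-s)) (riemannZeta s ^ j * Dp A X s) := by
  have hz : LSeriesHasSum (fun n => toC zR n) s (riemannZeta s) := by
    rw [toC_zR]
    have := ArithmeticFunction.LSeriesHasSum_zeta hs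
    exact this
  have hzj : ∀ j : ℕ, LSeriesHasSum (fun n => toC (zR ^ j) n) s (riemannZeta s ^ j) := by
    intro j
    induction j with
    | zero =>
      rw [pow_zero, pow_zero]
      have h1 := Dp_hasSum 1 1 (by
        intro n hn
        rw [ArithmeticFunction.one_apply_ne]
        rintro rfl
        simp at hn) s
      have h2 : Dp (1 : ArithmeticFunction ℝ) 1 s = 1 := by
        unfold Dp; simp
      rwa [h2] at h1
    | succ j ih =>
      rw [pow_succ, pow_succ, toC_mul]
      exact ArithmeticFunction.LSeriesHasSum_mul ih hz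
  have h := ArithmeticFunction.LSeriesHasSum_mul (hzj j) (Dp_hasSum A X hX s)
  rw [← toC_mul] at h
  unfold LSeriesHasSum at h
  have e : LSeries.term (fun n => (toC (zR ^ j * A)) n) s =
      fun n : ℕ => ((zR ^ j * A) n : ℂ) * (n : ℂ) ^ (-s) := by
    ext n
    rcases Nat.eq_zero_or_pos n with h0 | h0
    · subst h0; simp
    · rw [LSeries.term_of_ne_zero (by omega), toC_apply, Complex.cpow_neg, div_eq_mul_inv]
  rw [e] at h
  exact h

end

end Pool.Agent.H306R2
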