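import Pool.Agent.H27.G.R_seed8.H306R2.Right

set_option autoImplicit false

namespace Pool.Agent.H306R2

open MeasureTheory Filter Topology Finset

noncomputable section

/-- horizontal segment bound -/
lemma horiz_bound (Φ : ℂ → ℂ) (B : ℝ) (hB : 0 ≤ B) (N : ℕ)
    (hb : ∀ s : ℂ, 1 / 2 ≤ s.re → 1 ≤ |s.im| → ‖Φ s‖ ≤ B * (‖s‖ + 1) ^ N)
    (g : ℕ → ℝ) (Y τ H : ℝ) (hY : 1 ≤ Y) (hH : 1 ≤ H) (c : ℕ)
    (hg : ∀ n, |g n| ≤ (n : ℝ) ^ c) (y R M : ℝ) (hy : |y - τ| = R) (hy1 : 1 ≤ |y|)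
    (hM : (c:ℝ) + 5 / 2 + |y| + 1 ≤ M) :
    ‖∫ x : ℝ in (1/2 : ℝ)..(1 / 2 + ((c:ℝ) + 2)),
      Φ (x + y * Complex.I) * Gp g Y (x + y * Complex.I) * Wa τ H (x + y * Complex.I)‖ ≤
      ((c:ℝ) + 2) * (B * M ^ N * Y ^ (2 * c + 3) *
        (Real.exp (((c:ℝ) + 2) ^ 2 / H ^ 2) * Real.exp (-(R ^ 2 / H ^ 2)))) := by
  have hH0 : 0 < H := by linarith
  have h := intervalIntegral.norm_integral_le_of_norm_le_const (a := (1/2 : ℝ))
    (b := 1 / 2 + ((c:ℝ) + 2))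
    (f := fun x : ℝ => Φ (x + y * Complex.I) * Gp g Y (x + y * Complex.I) * Wa τ H (x + y * Complex.I))
    (C := B * M ^ N * Y ^ (2 * c + 3) *
        (Real.exp (((c:ℝ) + 2) ^ 2 / H ^ 2) * Real.exp (-(R ^ 2 / H ^ 2)))) ?_
  · refine h.trans (le_of_eq ?_)
    have : |1 / 2 + ((c:ℝ) + 2) - 1 / 2| = (c:ℝ) + 2 := by
      rw [show 1 / 2 + ((c:ℝ) + 2) - 1 / 2 = (c:ℝ) + 2 by ring]
      exact abs_of_nonneg (by positivity)
    rw [this]; ring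
  · intro x hx
    rw [Set.uIoc_of_le (by linarith [(Nat.cast_nonneg c : (0:ℝ) ≤ c)])] at hx
    have hx1 : 1 / 2 < x := hx.1
    have hx2 : x ≤ 1 / 2 + ((c:ℝ) + 2) := hx.2
    have hre : ((x:ℂ) + y * Complex.I).re = x := by simp
    have him : ((x:ℂ) + y * Complex.I).im = y := by simp
    have h1 : ‖Φ (x + y * Complex.I)‖ ≤ B * M ^ N := by
      refine (hb _ (by rw [hre]; linarith) (by rw [him]; exact hy1)).trans ?_
      have h2 : ‖(x:ℂ) + y * Complex.I‖ ≤ |x| + |y| := by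
        refine (norm_add_le _ _).trans ?_
        simp
      rw [abs_of_pos (by linarith : 0 < x)] at h2
      have h3 : ‖(x:ℂ) + y * Complex.I‖ + 1 ≤ M := by linarith
      gcongr
    have h2 : ‖Gp g Y (x + y * Complex.I)‖ ≤ Y ^ (2 * c + 3) := by
      have := norm_Gp_le g Y hY c hg (x + y * Complex.I) (c + 2) (by rw [hre]; push_cast; linarith)
      rwa [show c + (c + 2) + 1 = 2 * c + 3 by ring] at this
    have h3 : ‖Wa τ H (x + y * Complex.I)‖ ≤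
        Real.exp (((c:ℝ) + 2) ^ 2 / H ^ 2) * Real.exp (-(R ^ 2 / H ^ 2)) := by
      have e1 : (x:ℂ) + y * Complex.I = (((1 / 2 + (x - 1/2) : ℝ) : ℂ) + y * Complex.I) := by
        congr 2; ring
      rw [e1, norm_Wa τ H hH0]
      unfold gw
      have h4 : (y - τ) ^ 2 = R ^ 2 := by rw [← hy, sq_abs]
      rw [h4]
      have h5 : Real.exp (-(R ^ 2 / H ^ 2)) / (H * Real.sqrt Real.pi) ≤ Real.exp (-(R ^ 2 / H ^ 2)) := by
        apply div_le_self (Real.exp_pos _).le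
        have : (1:ℝ) ≤ Real.sqrt Real.pi := by
          rw [Real.one_le_sqrt]
          linarith [Real.pi_gt_three]
        nlinarith
      have h6 : Real.exp ((x - 1 / 2) ^ 2 / H ^ 2) ≤ Real.exp (((c:ℝ) + 2) ^ 2 / H ^ 2) := by
        apply Real.exp_le_exp.mpr
        have : 0 ≤ x - 1/2 := by linarith
        have : x - 1/2 ≤ (c:ℝ) + 2 := by linarith
        gcongr
      gcongr
    rw [norm_mul, norm_mul]
    have hM0 : 0 ≤ M := by
      have : (0:ℝ) ≤ c := Nat.cast_nonneg c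
      have := abs_nonneg y
      linarith
    have hY0 : 0 ≤ Y := by linarith
    gcongr

/-- Contour shift for a window. -/
theorem contour (Φ : ℂ → ℂ) (B : ℝ) (hB : 0 ≤ B) (N : ℕ)
    (hd : ∀ s : ℂ, 0 < s.re → s ≠ 1 → DifferentiableAt ℂ Φ s)
    (hb : ∀ s : ℂ, 1 / 2 ≤ s.re → 1 ≤ |s.im| → ‖Φ s‖ ≤ B * (‖s‖ + 1) ^ N)
    (f g : ℕ → ℝ) (Y τ H R M : ℝ) (hY : 1 ≤ Y) (hH : 1 ≤ H) (c : ℕ) (hf0 : f 0 = 0)
    (hf : ∀ n, |f n| ≤ (n : ℝ) ^ c) (hg : ∀ n, |g n| ≤ (n : ℝ) ^ c)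
    (hK : 16 * (2 * c + 3) * Y ≤ H ^ 2)
    (hser : ∀ y : ℝ, HasSum (fun n : ℕ => (f n : ℂ) *
        (n : ℂ) ^ (-(((1 / 2 + ((c:ℝ) + 2) : ℝ) : ℂ) + y * Complex.I)))
        (Φ (((1 / 2 + ((c:ℝ) + 2) : ℝ) : ℂ) + y * Complex.I)))
    (hR : 0 ≤ R) (hτ : 1 ≤ τ - R) (hM : (c:ℝ) + 5 / 2 + (τ + R) + 1 ≤ M) :
    ‖(∫ t in (τ - R)..(τ + R), Φ (1 / 2 + t * Complex.I) *
        (starRingEnd ℂ) (Dp g Y (1 / 2 + t * Complex.I)) * (gw τ H t : ℂ)) -
      ((∑ m ∈ Icc 1 ⌊Y⌋₊, f m * g m / m : ℝ) : ℂ)‖ ≤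
      Z2 * (Y ^ (3 * c + 4) * Real.exp (-(H ^ 2 / (32 * Y ^ 2)))) +
      Z2 * (Y ^ (2 * c + 3) * Real.exp (((c:ℝ) + 2) ^ 2 / H ^ 2)) *
        (2 * Real.exp (-(R ^ 2 / (2 * H ^ 2)))) +
      2 * (((c:ℝ) + 2) * (B * M ^ N * Y ^ (2 * c + 3) *
        (Real.exp (((c:ℝ) + 2) ^ 2 / H ^ 2) * Real.exp (-(R ^ 2 / H ^ 2))))) := by
  have hH0 : 0 < H := by linarith
  set Ψ : ℂ → ℂ := fun s => Φ s * Gp g Y s * Wa τ H s with hΨ
  set σ : ℝ := 1 / 2 + ((c:ℝ) + 2) with hσ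
  have hc0 : (0:ℝ) ≤ c := Nat.cast_nonneg c
  -- rectangle
  have hrect := Complex.integral_boundary_rect_eq_zero_of_differentiableOn Ψ
    ⟨1/2, τ - R⟩ ⟨σ, τ + R⟩ ?_
  swap
  · intro s hs
    simp only at hs
    rw [Complex.mem_reProdIm] at hs
    obtain ⟨h1, h2⟩ := hs
    rw [Set.uIcc_of_le (by rw [hσ]; linarith)] at h1
    rw [Set.uIcc_of_le (by linarith)] at h2
    have hs1 : s ≠ 1 := by
      rintro rfl
      simp at h2
      linarith [h2.1]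
    have hd1 := hd s (by linarith [h1.1]) hs1
    exact ((hd1.mul (Gp_differentiable g Y s)).mul (Wa_differentiable τ H s)).differentiableWithinAt
  simp only at hrect
  -- left line
  have hleft : (∫ y in (τ - R)..(τ + R), Ψ (((1/2 : ℝ) : ℂ) + y * Complex.I)) =
      ∫ t in (τ - R)..(τ + R), Φ (1 / 2 + t * Complex.I) *
        (starRingEnd ℂ) (Dp g Y (1 / 2 + t * Complex.I)) * (gw τ H t : ℂ) := by
    refine intervalIntegral.integral_congr fun t _ => ?_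
    simp only [hΨ]
    have e : (((1/2 : ℝ) : ℂ) + (t:ℂ) * Complex.I) = 1 / 2 + (t:ℂ) * Complex.I := by
      push_cast; rfl
    rw [e, Wa_half, Gp_half]
  -- right line
  have hright : ∀ y : ℝ, Ψ ((σ : ℂ) + y * Complex.I) = ∑' n, Fr f g Y τ H ((c:ℝ) + 2) n y := by
    intro y
    have h1 := (hser y).mul_right (Gp g Y (((1 / 2 + ((c:ℝ) + 2) : ℝ) : ℂ) + y * Complex.I) *
      Wa τ H (((1 / 2 + ((c:ℝ) + 2) : ℝ) : ℂ) + y * Complex.I))
    have h2 := h1.tsum_eq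
    simp only [hΨ, Fr, hσ]
    rw [mul_assoc, ← h2]
    refine tsum_congr fun n => ?_
    ring
  have hGnorm : ∀ y : ℝ, ‖∑' n, Fr f g Y τ H ((c:ℝ) + 2) n y‖ ≤
      Z2 * (Y ^ (2 * c + 3) * Real.exp (((c:ℝ) + 2) ^ 2 / H ^ 2)) * gw τ H y := by
    intro y
    have h1 : HasSum (fun n : ℕ => 1 / (n:ℝ) ^ 2 *
        (Y ^ (2 * c + 3) * Real.exp (((c:ℝ) + 2) ^ 2 / H ^ 2)) * gw τ H y)
        (Z2 * (Y ^ (2 * c + 3) * Real.exp (((c:ℝ) + 2) ^ 2 / H ^ 2)) * gw τ H y) :=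
      (Z2_summable.hasSum.mul_right _).mul_right _
    exact tsum_of_norm_bounded h1 fun n => Fr_norm' f g Y τ H hY hH0 c hf0 hf hg n y
  -- continuity / integrability of the right line function
  have hGcont : Continuous (fun y : ℝ => ∑' n, Fr f g Y τ H ((c:ℝ) + 2) n y) := by
    have h1 : (fun y : ℝ => ∑' n, Fr f g Y τ H ((c:ℝ) + 2) n y) =
        fun y : ℝ => ∑' n : ℕ, Fr f g Y τ H ((c:ℝ) + 2) n y := rfl
    refine continuous_tsum (u := fun n : ℕ => 1 / (n:ℝ) ^ 2 *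
        (Y ^ (2 * c + 3) * Real.exp (((c:ℝ) + 2) ^ 2 / H ^ 2)) * (1 / (H * Real.sqrt Real.pi))) ?_ ?_ ?_
    · intro n
      rcases Nat.eq_zero_or_pos n with h | h
      · subst h
        have : Fr f g Y τ H ((c:ℝ) + 2) 0 = fun _ => 0 := by
          ext y; exact Fr_zero f g Y τ H _ hf0 y
        rw [this]; exact continuous_const
      · exact Fr_continuous f g Y τ H _ n h
    · exact (Z2_summable.mul_right _).mul_right _
    · intro n y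
      refine (Fr_norm' f g Y τ H hY hH0 c hf0 hf hg n y).trans ?_
      have : gw τ H y ≤ 1 / (H * Real.sqrt Real.pi) := by
        unfold gw
        have : Real.exp (-((y - τ) ^ 2 / H ^ 2)) ≤ 1 := by
          rw [Real.exp_le_one_iff]
          have : 0 ≤ (y - τ) ^ 2 / H ^ 2 := by positivity
          linarith
        gcongr
      gcongr
  have hGint : Integrable (fun y : ℝ => ∑' n, Fr f g Y τ H ((c:ℝ) + 2) n y) :=
    Integrable.mono' ((gw_integrable τ H hH0).const_mul _) hGcont.aestronglyMeasurable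
      (Eventually.of_forall hGnorm)
  have hright2 : (∫ y in (τ - R)..(τ + R), Ψ ((σ : ℂ) + y * Complex.I)) =
      (∫ y, ∑' n, Fr f g Y τ H ((c:ℝ) + 2) n y) -
        ∫ y in (Set.Ioc (τ - R) (τ + R))ᶜ, ∑' n, Fr f g Y τ H ((c:ℝ) + 2) n y := by
    have h1 : (∫ y in (τ - R)..(τ + R), Ψ ((σ : ℂ) + y * Complex.I)) =
        ∫ y in (τ - R)..(τ + R), ∑' n, Fr f g Y τ H ((c:ℝ) + 2) n y :=
      intervalIntegral.integral_congr fun y _ => hright y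
    rw [h1, intervalIntegral.integral_of_le (by linarith)]
    rw [← integral_add_compl measurableSet_Ioc hGint]
    ring
  have htail : ‖∫ y in (Set.Ioc (τ - R) (τ + R))ᶜ, ∑' n, Fr f g Y τ H ((c:ℝ) + 2) n y‖ ≤
      Z2 * (Y ^ (2 * c + 3) * Real.exp (((c:ℝ) + 2) ^ 2 / H ^ 2)) *
        (2 * Real.exp (-(R ^ 2 / (2 * H ^ 2)))) := by
    have hZ := Z2_nonneg
    calc ‖∫ y in (Set.Ioc (τ - R) (τ + R))ᶜ, ∑' n, Fr f g Y τ H ((c:ℝ) + 2) n y‖ ≤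
        ∫ y in (Set.Ioc (τ - R) (τ + R))ᶜ,
          Z2 * (Y ^ (2 * c + 3) * Real.exp (((c:ℝ) + 2) ^ 2 / H ^ 2)) * gw τ H y := by
          refine norm_integral_le_of_norm_le ((gw_integrable τ H hH0).const_mul _).integrableOn ?_
          exact Eventually.of_forall hGnorm
      _ = Z2 * (Y ^ (2 * c + 3) * Real.exp (((c:ℝ) + 2) ^ 2 / H ^ 2)) *
          ∫ y in (Set.Ioc (τ - R) (τ + R))ᶜ, gw τ H y := by rw [integral_const_mul]
      _ ≤ _ := by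
          have := gw_tail τ H R hH0 hR
          gcongr
  have hoff := right_line f g Y τ H hY hH0 c hf0 hf hg hK
  have hz1 := horiz_bound Φ B hB N hb g Y τ H hY hH c hg (τ - R) R M
    (by rw [show τ - R - τ = -R by ring, abs_neg, abs_of_nonneg hR])
    (by rw [abs_of_nonneg (by linarith)]; exact hτ)
    (by rw [abs_of_nonneg (by linarith : 0 ≤ τ - R)]; linarith)
  have hz2 := horiz_bound Φ B hB N hb g Y τ H hY hH c hg (τ + R) R M
    (by rw [show τ + R - τ = R by ring, abs_of_nonneg hR])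
    (by rw [abs_of_nonneg (by linarith)]; linarith)
    (by rw [abs_of_nonneg (by linarith : 0 ≤ τ + R)]; linarith)
  -- combine
  set hor1 := ∫ x : ℝ in (1/2 : ℝ)..σ, Ψ (x + ((τ - R : ℝ) : ℂ) * Complex.I) with hh1
  set hor2 := ∫ x : ℝ in (1/2 : ℝ)..σ, Ψ (x + ((τ + R : ℝ) : ℂ) * Complex.I) with hh2
  have hkey : (∫ y in (τ - R)..(τ + R), Ψ (((1/2 : ℝ) : ℂ) + y * Complex.I)) =
      (∫ y in (τ - R)..(τ + R), Ψ ((σ : ℂ) + y * Complex.I)) - Complex.I * (hor1 - hor2) := by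
    simp only [smul_eq_mul] at hrect
    have hI : Complex.I * Complex.I = -1 := Complex.I_mul_I
    linear_combination (Complex.I) * hrect + (-(∫ y in (τ - R)..(τ + R), Ψ ((σ : ℂ) + y * Complex.I)) +
      (∫ y in (τ - R)..(τ + R), Ψ (((1/2 : ℝ) : ℂ) + y * Complex.I))) * hI
  rw [← hleft, hkey, hright2]
  set T0 := (∫ y, ∑' n, Fr f g Y τ H ((c:ℝ) + 2) n y)
  set T1 := ∫ y in (Set.Ioc (τ - R) (τ + R))ᶜ, ∑' n, Fr f g Y τ H ((c:ℝ) + 2) n y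
  set DD := ((∑ m ∈ Icc 1 ⌊Y⌋₊, f m * g m / m : ℝ) : ℂ)
  have e : T0 - T1 - Complex.I * (hor1 - hor2) - DD = (T0 - DD) - T1 - Complex.I * (hor1 - hor2) := by
    ring
  rw [e]
  have hz : ‖Complex.I * (hor1 - hor2)‖ ≤ 2 * (((c:ℝ) + 2) * (B * M ^ N * Y ^ (2 * c + 3) *
        (Real.exp (((c:ℝ) + 2) ^ 2 / H ^ 2) * Real.exp (-(R ^ 2 / H ^ 2))))) := by
    rw [norm_mul, Complex.norm_I, one_mul, two_mul]
    exact (norm_sub_le _ _).trans (add_le_add hz1 hz2)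
  calc ‖(T0 - DD) - T1 - Complex.I * (hor1 - hor2)‖ ≤
      ‖(T0 - DD) - T1‖ + ‖Complex.I * (hor1 - hor2)‖ := norm_sub_le _ _
    _ ≤ ‖T0 - DD‖ + ‖T1‖ + ‖Complex.I * (hor1 - hor2)‖ := by
        gcongr; exact norm_sub_le _ _
    _ ≤ _ := by gcongr

end

end Pool.Agent.H306R2
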