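import Mathlib

set_option autoImplicit false

/-! Convergence of functionals on the cube from convergence on monomials. -/

namespace Pool.Agent.H306R2

open Finset Filter Topology

noncomputable section

/-- the cube -/
abbrev Cube (r : ℕ) := Fin r → unitInterval

/-- coordinate function -/
def coord {r : ℕ} (i : Fin r) : C(Cube r, ℝ) := ⟨fun x => (x i : ℝ), by fun_prop⟩

/-- monomials -/
def mon {r : ℕ} (k : Fin r → ℕ) : C(Cube r, ℝ) := ∏ i, coord i ^ k i

lemma mon_apply {r : ℕ} (k : Fin r → ℕ) (x : Cube r) : mon k x = ∏ i, (x i : ℝ) ^ k i := by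
  simp [mon, coord]

lemma closure_coord {r : ℕ} (f : C(Cube r, ℝ))
    (hf : f ∈ Submonoid.closure (Set.range (coord (r := r)))) : ∃ k, f = mon k := by
  induction hf using Submonoid.closure_induction with
  | mem x hx =>
    obtain ⟨i, rfl⟩ := hx
    refine ⟨Pi.single i 1, ?_⟩
    unfold mon
    rw [prod_eq_single i]
    · simp
    · intro j _ hj
      rw [Pi.single_eq_of_ne hj, pow_zero]
    · intro h; exact absurd (mem_univ i) h
  | one => exact ⟨0, by simp [mon]⟩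
  | mul x y _ _ hx hy =>
    obtain ⟨k, rfl⟩ := hx
    obtain ⟨l, rfl⟩ := hy
    refine ⟨k + l, ?_⟩
    unfold mon
    rw [← prod_mul_distrib]
    exact prod_congr rfl fun i _ => by rw [Pi.add_apply, pow_add]

lemma adjoin_dense {r : ℕ} (f : C(Cube r, ℝ)) {ε : ℝ} (hε : 0 < ε) :
    ∃ g ∈ Submodule.span ℝ (Set.range (mon (r := r))), ‖g - f‖ < ε := by
  obtain ⟨g, hg⟩ := ContinuousMap.exists_mem_subalgebra_near_continuousMap_of_separatesPoints
    (Algebra.adjoin ℝ (Set.range (coord (r := r)))) (by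
      intro x y hxy
      obtain ⟨i, hi⟩ := Function.ne_iff.mp hxy
      refine ⟨coord i, ⟨coord i, ?_, rfl⟩, ?_⟩
      · exact Algebra.subset_adjoin ⟨i, rfl⟩
      · simp only [coord, ContinuousMap.coe_mk, ne_eq]
        intro h
        exact hi (Subtype.ext h)) f ε hε
  refine ⟨g, ?_, hg⟩
  have h1 : (g : C(Cube r, ℝ)) ∈ Subalgebra.toSubmodule (Algebra.adjoin ℝ (Set.range (coord (r := r)))) :=
    g.2
  rw [Algebra.adjoin_eq_span] at h1
  refine Submodule.span_mono ?_ h1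
  intro f hf
  obtain ⟨k, rfl⟩ := closure_coord f hf
  exact ⟨k, rfl⟩

theorem stone_tendsto {r : ℕ} {β : Type*} (l : Filter β) (Λ : β → C(Cube r, ℝ) →ₗ[ℝ] ℝ)
    (Λ0 : C(Cube r, ℝ) →ₗ[ℝ] ℝ)
    (hb : ∀ b f, |Λ b f| ≤ ‖f‖ * Λ b 1) (hb0 : ∀ f, |Λ0 f| ≤ ‖f‖ * Λ0 1)
    (h : ∀ k : Fin r → ℕ, Tendsto (fun b => Λ b (mon k)) l (𝓝 (Λ0 (mon k))))
    (f : C(Cube r, ℝ)) : Tendsto (fun b => Λ b f) l (𝓝 (Λ0 f)) := by
  have hspan : ∀ g ∈ Submodule.span ℝ (Set.range (mon (r := r))),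
      Tendsto (fun b => Λ b g) l (𝓝 (Λ0 g)) := by
    intro g hg
    induction hg using Submodule.span_induction with
    | mem x hx => obtain ⟨k, rfl⟩ := hx; exact h k
    | zero => simp only [map_zero]; exact tendsto_const_nhds
    | add x y _ _ hx hy => simp only [map_add]; exact hx.add hy
    | smul a x _ hx => simp only [map_smul]; exact hx.const_smul a
  have h1 : mon (0 : Fin r → ℕ) = 1 := by simp [mon]
  have hC := h 0
  rw [h1] at hC
  have hC0 : 0 ≤ Λ0 1 := by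
    by_contra hneg
    rw [not_le] at hneg
    have := hb0 1
    rcases isEmpty_or_nonempty (Cube r) with he | he
    · exact (IsEmpty.false (fun _ : Fin r => (0 : unitInterval))).elim
    · rw [norm_one, one_mul] at this
      have h2 := abs_nonneg (Λ0 1)
      linarith
  set C := Λ0 1 + 1 with hCdef
  have hCpos : 0 < C := by linarith
  rw [Metric.tendsto_nhds]
  intro ε hε
  obtain ⟨g, hg, hgf⟩ := adjoin_dense f (ε := ε / (3 * C)) (by positivity)
  have h2 := (Metric.tendsto_nhds.mp (hspan g hg)) (ε / 3) (by positivity)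
  have h3 := hC.eventually_lt_const (by linarith : Λ0 1 < C)
  filter_upwards [h2, h3] with b hb2 hb3
  rw [Real.dist_eq] at hb2 ⊢
  have e1 : |Λ b (g - f)| ≤ ε / 3 := by
    refine (hb b _).trans ?_
    have : 0 ≤ Λ b 1 ∨ Λ b 1 < 0 := le_or_gt 0 _
    rcases this with h4 | h4
    · calc ‖g - f‖ * Λ b 1 ≤ ε / (3 * C) * C := by gcongr
        _ = ε / 3 := by field_simp
    · have : ‖g - f‖ * Λ b 1 ≤ 0 := mul_nonpos_of_nonneg_of_nonpos (norm_nonneg _) h4.le
      have : 0 < ε / 3 := by positivity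
      linarith
  have e2 : |Λ0 (g - f)| ≤ ε / 3 * (Λ0 1 / C) := by
    refine (hb0 _).trans ?_
    calc ‖g - f‖ * Λ0 1 ≤ ε / (3 * C) * Λ0 1 := by gcongr
      _ = ε / 3 * (Λ0 1 / C) := by field_simp
  have e3 : Λ0 1 / C < 1 := by rw [div_lt_one hCpos]; linarith
  have e4 : ε / 3 * (Λ0 1 / C) ≤ ε / 3 := by
    have : ε / 3 * (Λ0 1 / C) ≤ ε / 3 * 1 := by gcongr
    linarith
  have e5 : Λ b f - Λ0 f = (Λ b g - Λ0 g) - Λ b (g - f) + Λ0 (g - f) := by
    rw [map_sub, map_sub]; ring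
  rw [e5]
  calc |(Λ b g - Λ0 g) - Λ b (g - f) + Λ0 (g - f)|
      ≤ |Λ b g - Λ0 g| + |Λ b (g - f)| + |Λ0 (g - f)| :=
        (abs_add_le _ _).trans (add_le_add_left (abs_sub _ _) _)
    _ < ε := by linarith

end

end Pool.Agent.H306R2
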