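import Pool.Agent.H27.G.R_seed8.H306R2.Defs

set_option autoImplicit false


open MeasureTheory Filter Topology Set

namespace Pool.Agent.H306R2

noncomputable section

/-- fractional part cut off at `1` -/
def fr (t : ℝ) : ℂ := (Ioi (1:ℝ)).indicator (fun t => ((Int.fract t : ℝ) : ℂ)) t

lemma fr_measurable : Measurable fr := by
  unfold fr
  refine Measurable.indicator ?_ measurableSet_Ioi
  exact Complex.measurable_ofReal.comp measurable_fract

lemma fr_norm_le (t : ℝ) : ‖fr t‖ ≤ 1 := by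
  unfold fr
  by_cases ht : t ∈ Ioi (1:ℝ)
  · rw [indicator_of_mem ht, Complex.norm_real, Real.norm_of_nonneg (Int.fract_nonneg t)]
    exact (Int.fract_lt_one t).le
  · rw [indicator_of_notMem ht, norm_zero]
    exact zero_le_one

/-- `∫_1^∞ {t} t^(-s-1) dt` as a Mellin transform -/
def Hf (s : ℂ) : ℂ := mellin fr (-s)

lemma Hf_differentiableAt {s : ℂ} (hs : 0 < s.re) : DifferentiableAt ℂ Hf s := by
  have h1 : DifferentiableAt ℂ (mellin fr) (-s) := by
    refine mellin_differentiableAt_of_isBigO_rpow (a := 0) (b := -s.re - 1) ?_ ?_ ?_ ?_ ?_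
    · refine LocallyIntegrable.locallyIntegrableOn ?_ _
      refine LocallyIntegrable.mono (locallyIntegrable_const (1:ℝ)) fr_measurable.aestronglyMeasurable ?_
      refine Eventually.of_forall fun t => ?_
      rw [norm_one]
      exact fr_norm_le t
    · refine Asymptotics.IsBigO.of_bound 1 (Eventually.of_forall fun t => ?_)
      simp only [neg_zero, Real.rpow_zero, norm_one, mul_one]
      exact fr_norm_le t
    · simpa using hs
    · refine Asymptotics.IsBigO.of_bound 1 ?_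
      have h2 : ∀ᶠ t : ℝ in 𝓝[>] 0, t < 1 := nhdsWithin_le_nhds (Iio_mem_nhds one_pos)
      filter_upwards [h2] with t ht
      have : fr t = 0 := by
        unfold fr
        rw [indicator_of_notMem]
        simp only [mem_Ioi, not_lt]
        exact ht.le
      rw [this, norm_zero]
      positivity
    · simp
  exact h1.comp s differentiableAt_id.neg

lemma Hf_eq (s : ℂ) : Hf s = ∫ t in Ioi (1:ℝ), ((Int.fract t : ℝ) : ℂ) * (t : ℂ) ^ (-(s + 1)) := by
  unfold Hf mellin
  have hsub : Ioi (1:ℝ) ⊆ Ioi 0 := Ioi_subset_Ioi zero_le_one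
  have h1 : ∀ t : ℝ, (t : ℂ) ^ (-s - 1) • fr t =
      (Ioi (1:ℝ)).indicator (fun t => ((Int.fract t : ℝ) : ℂ) * (t : ℂ) ^ (-(s + 1))) t := by
    intro t
    unfold fr
    by_cases ht : t ∈ Ioi (1:ℝ)
    · rw [indicator_of_mem ht, indicator_of_mem ht, smul_eq_mul, mul_comm]
      congr 2
      ring
    · rw [indicator_of_notMem ht, indicator_of_notMem ht, smul_zero]
  simp_rw [h1]
  rw [setIntegral_indicator measurableSet_Ioi, inter_eq_self_of_subset_right hsub]

lemma Hf_norm_le {s : ℂ} (hs : 0 < s.re) : ‖Hf s‖ ≤ 1 / s.re := by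
  rw [Hf_eq]
  have h1 : ∫ t in Ioi (1:ℝ), t ^ (-s.re - 1) = 1 / s.re := by
    rw [integral_Ioi_rpow_of_lt (by linarith) one_pos]
    rw [Real.one_rpow]
    have : -s.re - 1 + 1 = -s.re := by ring
    rw [this, neg_div_neg_eq]
  rw [← h1]
  refine norm_integral_le_of_norm_le (integrableOn_Ioi_rpow_of_lt (by linarith) one_pos) ?_
  refine (ae_restrict_mem measurableSet_Ioi).mono fun t ht => ?_
  have ht' : (1:ℝ) < t := ht
  have ht0 : 0 < t := by linarith
  rw [norm_mul, Complex.norm_real, Real.norm_of_nonneg (Int.fract_nonneg t),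
    Complex.norm_cpow_eq_rpow_re_of_pos ht0]
  have h2 : (-(s + 1)).re = -s.re - 1 := by simp; ring
  rw [h2]
  have h3 : 0 ≤ t ^ (-s.re - 1) := (Real.rpow_pos_of_pos ht0 _).le
  have h4 := (Int.fract_lt_one t).le
  calc Int.fract t * t ^ (-s.re - 1) ≤ 1 * t ^ (-s.re - 1) := mul_le_mul_of_nonneg_right h4 h3
    _ = _ := one_mul _

/-- `(s-1)ζ(s)` on `Re s > 0` -/
def Zt (s : ℂ) : ℂ := s - s * (s - 1) * Hf s

lemma zeta_eq {s : ℂ} (hs : 1 < s.re) : (s - 1) * riemannZeta s = Zt s := by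
  have hs0 : 0 < s.re := by linarith
  have hO : (fun n => ∑ k ∈ Finset.Icc 1 n, (fun _ : ℕ => (1:ℝ)) k) =O[atTop]
      fun n : ℕ => (n : ℝ) ^ (1:ℝ) := by
    refine Asymptotics.IsBigO.of_bound 1 (Eventually.of_forall fun n => ?_)
    simp
  have hL := LSeries_eq_mul_integral_of_nonneg (fun _ : ℕ => (1:ℝ)) (r := 1) zero_le_one hs hO
    (fun _ => zero_le_one)
  have hL1 : LSeries (fun n : ℕ => (((fun _ : ℕ => (1:ℝ)) n : ℝ) : ℂ)) s = riemannZeta s := by
    rw [← LSeries_one_eq_riemannZeta hs]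
    congr 1
  rw [hL1] at hL
  have hi1 : IntegrableOn (fun t : ℝ => (t : ℂ) ^ (-s)) (Ioi 1) :=
    integrableOn_Ioi_cpow_of_lt (by simpa using hs) one_pos
  have hi2 : IntegrableOn (fun t : ℝ => ((Int.fract t : ℝ) : ℂ) * (t : ℂ) ^ (-(s + 1))) (Ioi 1) := by
    refine Integrable.mono' (g := fun t : ℝ => t ^ (-s.re - 1))
      (integrableOn_Ioi_rpow_of_lt (by linarith) one_pos) ?_ ?_
    · refine AEStronglyMeasurable.mul ?_ ?_
      · exact (Complex.measurable_ofReal.comp measurable_fract).aestronglyMeasurable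
      · refine ContinuousOn.aestronglyMeasurable ?_ measurableSet_Ioi
        intro t ht
        have ht' : (1:ℝ) < t := ht
        refine ContinuousAt.continuousWithinAt ?_
        exact (Complex.continuousAt_ofReal_cpow_const _ _ (Or.inr (by linarith)))
    · refine (ae_restrict_mem measurableSet_Ioi).mono fun t ht => ?_
      have ht' : (1:ℝ) < t := ht
      have ht0 : 0 < t := by linarith
      rw [norm_mul, Complex.norm_real, Real.norm_of_nonneg (Int.fract_nonneg t),
        Complex.norm_cpow_eq_rpow_re_of_pos ht0]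
      have h2 : (-(s + 1)).re = -s.re - 1 := by simp; ring
      rw [h2]
      have h3 : 0 ≤ t ^ (-s.re - 1) := (Real.rpow_pos_of_pos ht0 _).le
      have h4 := (Int.fract_lt_one t).le
      calc Int.fract t * t ^ (-s.re - 1) ≤ 1 * t ^ (-s.re - 1) := mul_le_mul_of_nonneg_right h4 h3
        _ = _ := one_mul _
  have hint : ∫ t in Ioi (1:ℝ), (∑ k ∈ Finset.Icc 1 ⌊t⌋₊, (((fun _ : ℕ => (1:ℝ)) k : ℝ) : ℂ)) *
      (t : ℂ) ^ (-(s + 1)) = 1 / (s - 1) - Hf s := by
    have h1 : ∫ t in Ioi (1:ℝ), (t : ℂ) ^ (-s) = 1 / (s - 1) := by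
      rw [integral_Ioi_cpow_of_lt (by simpa using hs) one_pos]
      rw [Complex.ofReal_one, Complex.one_cpow]
      have : -s + 1 = -(s - 1) := by ring
      rw [this, neg_div_neg_eq]
    rw [← h1, Hf_eq, ← integral_sub hi1 hi2]
    refine setIntegral_congr_fun measurableSet_Ioi fun t ht => ?_
    have ht' : (1:ℝ) < t := ht
    have ht0 : 0 < t := by linarith
    simp only [Complex.ofReal_one, Finset.sum_const, Nat.card_Icc, add_tsub_cancel_right,
      nsmul_eq_mul, mul_one]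
    have e1 : (t : ℂ) ^ (-s) = (t : ℂ) * (t : ℂ) ^ (-(s + 1)) := by
      have htc : (t : ℂ) ≠ 0 := by exact_mod_cast ht0.ne'
      have e3 : -s = 1 + -(s + 1) := by ring
      rw [e3, Complex.cpow_add _ _ htc, Complex.cpow_one]
    have e2 : ((⌊t⌋₊ : ℕ) : ℂ) = (t : ℂ) - ((Int.fract t : ℝ) : ℂ) := by
      have : ((⌊t⌋₊ : ℕ) : ℝ) = t - Int.fract t := by
        rw [natCast_floor_eq_intCast_floor ht0.le]
        rw [Int.fract]
        ring
      rw [← Complex.ofReal_natCast, this]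
      push_cast
      ring
    rw [e1, e2]
    ring
  rw [hint] at hL
  have hs1 : s - 1 ≠ 0 := by
    intro h
    have : (s - 1).re = 0 := by rw [h]; simp
    simp at this
    linarith
  rw [hL]
  unfold Zt
  field_simp

end

end Pool.Agent.H306R2



open MeasureTheory Filter Topology Set

namespace Pool.Agent.H306R2

noncomputable section

lemma Zt_differentiableAt {s : ℂ} (hs : 0 < s.re) : DifferentiableAt ℂ Zt s := by
  unfold Zt
  have h := Hf_differentiableAt hs
  fun_prop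

lemma Zt_analyticOn : AnalyticOnNhd ℂ Zt {s | 0 < s.re} :=
  DifferentiableOn.analyticOnNhd (fun _ hs => (Zt_differentiableAt hs).differentiableWithinAt)
    (isOpen_lt continuous_const Complex.continuous_re)

lemma Zt_one : Zt 1 = 1 := by
  unfold Zt; ring

lemma Zt_norm_le {s : ℂ} (hs : 1 / 2 ≤ s.re) : ‖Zt s‖ ≤ 3 * (‖s‖ + 1) ^ 2 := by
  have hs0 : 0 < s.re := by linarith
  have h1 := Hf_norm_le hs0
  have h2 : 1 / s.re ≤ 2 := by
    rw [div_le_iff₀ hs0]; linarith
  have h3 : ‖s - 1‖ ≤ ‖s‖ + 1 := by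
    have := norm_sub_le s 1
    rwa [norm_one] at this
  unfold Zt
  calc ‖s - s * (s - 1) * Hf s‖ ≤ ‖s‖ + ‖s * (s - 1) * Hf s‖ := norm_sub_le _ _
    _ = ‖s‖ + ‖s‖ * ‖s - 1‖ * ‖Hf s‖ := by rw [norm_mul, norm_mul]
    _ ≤ ‖s‖ + ‖s‖ * (‖s‖ + 1) * 2 := by gcongr; exact h1.trans h2
    _ ≤ 3 * (‖s‖ + 1) ^ 2 := by nlinarith [norm_nonneg s]

/-- the identity `(s-1)ζ(s) = Zt s` on the open half plane `Re s > 0`. -/
lemma zeta_eq_pos {s : ℂ} (hs : 0 < s.re) (hs1 : s ≠ 1) : (s - 1) * riemannZeta s = Zt s := by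
  have hU : IsOpen {s : ℂ | 0 < s.re} := isOpen_lt continuous_const Complex.continuous_re
  have hpre : IsPreconnected {s : ℂ | 0 < s.re} := (convex_halfSpace_re_gt 0).isPreconnected
  have h1 : AnalyticOnNhd ℂ (fun z => 1 + (z - 1) * riemannZeta₀ z) {s : ℂ | 0 < s.re} := by
    apply DifferentiableOn.analyticOnNhd _ hU
    have := differentiable_riemannZeta₀
    fun_prop
  have e : ∀ z : ℂ, z ≠ 1 → (z - 1) * riemannZeta z = 1 + (z - 1) * riemannZeta₀ z := by
    intro z hz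
    have hz' : z - 1 ≠ 0 := sub_ne_zero.mpr hz
    rw [riemannZeta_eq_inv_sub_add hz]
    field_simp
  have h3 : (fun z => 1 + (z - 1) * riemannZeta₀ z) =ᶠ[𝓝 (2:ℂ)] Zt := by
    have : {s : ℂ | 1 < s.re} ∈ 𝓝 (2:ℂ) :=
      (isOpen_lt continuous_const Complex.continuous_re).mem_nhds (by simp)
    filter_upwards [this] with z hz
    have hz' : (1:ℝ) < z.re := hz
    rw [← zeta_eq hz', e z]
    rintro rfl
    simp at hz'
  rw [e s hs1]
  exact h1.eqOn_of_preconnected_of_eventuallyEq Zt_analyticOn hpre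
    (show (2:ℂ) ∈ {s : ℂ | 0 < s.re} by simp) h3 hs

/-- growth bound -/
lemma zeta_norm_le {s : ℂ} (hs : 1 / 2 ≤ s.re) (h1 : 1 / 2 ≤ ‖s - 1‖) :
    ‖riemannZeta s‖ ≤ 6 * (‖s‖ + 1) ^ 2 := by
  have hs0 : 0 < s.re := by linarith
  have hne : s ≠ 1 := by
    rintro rfl
    simp at h1
    norm_num at h1
  have h2 := zeta_eq_pos hs0 hne
  have h3 := Zt_norm_le hs
  rw [← h2, norm_mul] at h3
  have h4 : (1 / 2) * ‖riemannZeta s‖ ≤ ‖s - 1‖ * ‖riemannZeta s‖ :=
    mul_le_mul_of_nonneg_right h1 (norm_nonneg _)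
  linarith

end

end Pool.Agent.H306R2
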